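import Mathlib
import Pool.Agent.H237.Gap.Rel

/-!
# Measures whose first Fourier coefficients are all equal
-/

namespace Pool.Agent.H237.Primes

open MeasureTheory Set Filter Topology Pool.Agent.H237.Gap

lemma integrable_fourier (ν : Measure UnitAddCircle) [IsFiniteMeasure ν] (n : ℤ) :
    Integrable (fun x : UnitAddCircle => (fourier n x : ℂ)) ν :=
  (BoundedContinuousFunction.mkOfCompact
      ⟨fun x : UnitAddCircle => (fourier n x : ℂ), by fun_prop⟩).integrable ν

lemma integral_fourier_neg (ν : Measure UnitAddCircle) (n : ℤ) :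
    ∫ x, (fourier (-n) x : ℂ) ∂ν = (starRingEnd ℂ) (∫ x, (fourier n x : ℂ) ∂ν) := by
  rw [← integral_conj]
  congr 1
  ext x
  exact fourier_neg

lemma norm_fourier_one (n : ℤ) (x : UnitAddCircle) : ‖(fourier n x : ℂ)‖ = 1 := by
  rw [fourier_apply]
  exact Circle.norm_coe _

/-- A representative of absolute value `‖x‖`. -/
lemma exists_rep (x : UnitAddCircle) : ∃ t : ℝ, ((t : ℝ) : UnitAddCircle) = x ∧ |t| = ‖x‖ := by
  obtain ⟨t, rfl⟩ := QuotientAddGroup.mk_surjective x
  refine ⟨t - round t, ?_, ?_⟩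
  · rw [AddCircle.coe_sub]
    have : ((round t : ℝ) : UnitAddCircle) = 0 := by
      rw [AddCircle.coe_eq_zero_iff]
      exact ⟨round t, by simp⟩
    rw [this, sub_zero]
  · exact (UnitAddCircle.norm_eq).symm

lemma fourier_re (n : ℤ) (t : ℝ) :
    (fourier n ((t : ℝ) : UnitAddCircle) : ℂ).re = Real.cos (2 * Real.pi * n * t) := by
  rw [fourier_coe_apply]
  have : (2 * (Real.pi : ℂ) * Complex.I * ((n : ℤ) : ℂ) * (t : ℂ) / ((1 : ℝ) : ℂ)) =
      ((2 * Real.pi * n * t : ℝ) : ℂ) * Complex.I := by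
    push_cast; ring
  rw [this, Complex.exp_ofReal_mul_I_re]

lemma norm_fourier_sub_one (n : ℕ) (x : UnitAddCircle) :
    ‖(fourier (n : ℤ) x : ℂ) - 1‖ ≤ 2 * Real.pi * n * ‖x‖ := by
  obtain ⟨t, rfl, ht⟩ := exists_rep x
  rw [← ht, fourier_coe_apply]
  have : (2 * (Real.pi : ℂ) * Complex.I * ((n : ℤ) : ℂ) * (t : ℂ) / ((1 : ℝ) : ℂ)) =
      Complex.I * ((2 * Real.pi * n * t : ℝ) : ℂ) := by
    push_cast; ring
  rw [this]
  refine le_trans Real.norm_exp_I_mul_ofReal_sub_one_le ?_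
  rw [Real.norm_eq_abs, abs_mul, abs_of_nonneg (by positivity : 0 ≤ 2 * Real.pi * n)]

/-- The geometric sum. -/
lemma norm_geom (a M : ℕ) (x : UnitAddCircle) :
    ‖∑ l ∈ Finset.range M, (fourier ((a + l : ℕ) : ℤ) x : ℂ)‖ * (2 * ‖x‖) ≤ 1 := by
  set z : ℂ := (fourier 1 x : ℂ) with hz
  have hz1 : ‖z‖ = 1 := norm_fourier_one 1 x
  have hpow : ∀ l : ℕ, (fourier (l : ℤ) x : ℂ) = z ^ l := by
    intro l
    rw [hz, fourier_apply, fourier_apply, one_smul, natCast_zsmul, AddCircle.toCircle_nsmul]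
    simp
  have h1 : ∑ l ∈ Finset.range M, (fourier ((a + l : ℕ) : ℤ) x : ℂ) =
      z ^ a * ∑ l ∈ Finset.range M, z ^ l := by
    rw [Finset.mul_sum]
    apply Finset.sum_congr rfl
    intro l _
    rw [hpow, pow_add]
  rw [h1, norm_mul, norm_pow, hz1, one_pow, one_mul]
  have h2 : (∑ l ∈ Finset.range M, z ^ l) * (z - 1) = z ^ M - 1 := geom_sum_mul z M
  have h3 : ‖∑ l ∈ Finset.range M, z ^ l‖ * ‖z - 1‖ ≤ 2 := by
    rw [← norm_mul, h2]
    calc ‖z ^ M - 1‖ ≤ ‖z ^ M‖ + ‖(1 : ℂ)‖ := norm_sub_le _ _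
      _ = 2 := by rw [norm_pow, hz1]; norm_num
  have h4 : 4 * ‖x‖ ≤ ‖z - 1‖ := by
    have h5 := one_sub_re x
    have h6 : ‖z - 1‖ ^ 2 = 2 * (1 - z.re) := by
      rw [← Complex.normSq_eq_norm_sq, Complex.normSq_apply]
      have h7 : z.re * z.re + z.im * z.im = 1 := by
        rw [← Complex.normSq_apply, Complex.normSq_eq_norm_sq, hz1]; norm_num
      simp only [Complex.sub_re, Complex.one_re, Complex.sub_im, Complex.one_im, sub_zero]
      nlinarith
    have h8 : (4 * ‖x‖) ^ 2 ≤ ‖z - 1‖ ^ 2 := by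
      rw [h6]; nlinarith
    exact le_of_sq_le_sq h8 (norm_nonneg _)
  have h9 := mul_le_mul_of_nonneg_left h4 (norm_nonneg (∑ l ∈ Finset.range M, z ^ l))
  linarith

/-- If the first coefficients are all equal, annuli which are not too small have small mass. -/
lemma annulus {ν : Measure UnitAddCircle} [IsProbabilityMeasure ν] {y : ℕ} {a : ℂ}
    (h : ∀ k : ℕ, 1 ≤ k → k ≤ y → ∫ x, (fourier (k : ℤ) x : ℂ) ∂ν = a) {M M' : ℕ} (hM : 1 ≤ M)
    (hM' : 1 ≤ M') (hy : 2 * M + M' ≤ y + 2) :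
    ν.real {x | 1 / (M' : ℝ) ≤ ‖x‖ ∧ ‖x‖ ≤ 1 / (6 * M)} ≤ 32 / M := by
  have hMR : (1 : ℝ) ≤ M := by exact_mod_cast hM
  have hM'R : (1 : ℝ) ≤ M' := by exact_mod_cast hM'
  have ha : ‖a‖ ≤ 1 := by
    have h1 := h 1 le_rfl (by omega)
    rw [← h1]
    calc ‖∫ x, (fourier ((1 : ℕ) : ℤ) x : ℂ) ∂ν‖ ≤ ∫ x, ‖(fourier ((1 : ℕ) : ℤ) x : ℂ)‖ ∂ν :=
          norm_integral_le_integral_norm _
      _ = 1 := by simp only [norm_fourier_one]; simp
  have hare : -1 ≤ a.re := by
    have := Complex.abs_re_le_norm a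
    have := neg_abs_le a.re
    linarith
  set A : UnitAddCircle → ℂ := fun x => ∑ i ∈ Finset.range M, (fourier (i : ℤ) x : ℂ) with hA
  have hAc : Continuous A := by
    rw [hA]; fun_prop
  -- the coefficients
  have hdiff : ∀ i j : ℕ, (∫ x, (fourier ((i : ℤ) - j) x : ℂ) ∂ν).re =
      if i = j then 1 else if (i ≤ j + y ∧ j ≤ i + y) then a.re else
        (∫ x, (fourier ((i : ℤ) - j) x : ℂ) ∂ν).re := by
    intro i j
    by_cases hij : i = j
    · subst hij
      simp
    · rw [if_neg hij]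
      by_cases hc : i ≤ j + y ∧ j ≤ i + y
      · rw [if_pos hc]
        rcases lt_or_gt_of_ne hij with hlt | hlt
        · have e1 : ((i : ℤ) - j) = -((j - i : ℕ) : ℤ) := by
            rw [Nat.cast_sub hlt.le]; ring
          rw [e1, integral_fourier_neg, h (j - i) (by omega) (by omega), Complex.conj_re]
        · have e1 : ((i : ℤ) - j) = ((i - j : ℕ) : ℤ) := by
            rw [Nat.cast_sub hlt.le]
          rw [e1, h (i - j) (by omega) (by omega)]
      · rw [if_neg hc]
  have hmain : ∀ k : ℕ, M ≤ k → k + M ≤ y + 1 →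
      ∫ x, ‖A x‖ ^ 2 * (1 - (fourier (k : ℤ) x : ℂ).re) ∂ν = M * (1 - a.re) := by
    intro k hk1 hk2
    have e1 : ∀ x, ‖A x‖ ^ 2 * (1 - (fourier (k : ℤ) x : ℂ).re) =
        (∑ i ∈ Finset.range M, ∑ j ∈ Finset.range M,
          ((fourier ((i : ℤ) - j) x : ℂ) - (fourier ((i : ℤ) - j + k) x : ℂ))).re := by
      intro x
      have e2 : (((‖A x‖ ^ 2 : ℝ)) : ℂ) = A x * (starRingEnd ℂ) (A x) := by
        rw [Complex.mul_conj, Complex.normSq_eq_norm_sq]
      have e3 : ‖A x‖ ^ 2 * (1 - (fourier (k : ℤ) x : ℂ).re) =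
          ((((‖A x‖ ^ 2 : ℝ)) : ℂ) * (1 - (fourier (k : ℤ) x : ℂ))).re := by
        rw [Complex.re_ofReal_mul]; simp
      rw [e3, e2]
      congr 1
      rw [hA]
      simp only
      rw [map_sum, Finset.sum_mul_sum, Finset.sum_mul]
      apply Finset.sum_congr rfl
      intro i _
      rw [Finset.sum_mul]
      apply Finset.sum_congr rfl
      intro j _
      rw [← fourier_neg, ← fourier_add, mul_sub, mul_one, ← fourier_add]
      rfl
    simp_rw [e1]
    have hint : ∀ i j : ℕ, Integrable (fun x : UnitAddCircle => (fourier ((i : ℤ) - j) x : ℂ) -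
        (fourier ((i : ℤ) - j + k) x : ℂ)) ν := fun i j =>
      (integrable_fourier ν _).sub (integrable_fourier ν _)
    have hint2 : Integrable (fun x : UnitAddCircle => ∑ i ∈ Finset.range M,
        ∑ j ∈ Finset.range M, ((fourier ((i : ℤ) - j) x : ℂ) -
          (fourier ((i : ℤ) - j + k) x : ℂ))) ν :=
      integrable_finsetSum _ fun i _ => integrable_finsetSum _ fun j _ => hint i j
    have e4 : ∫ x, (∑ i ∈ Finset.range M, ∑ j ∈ Finset.range M,
          ((fourier ((i : ℤ) - j) x : ℂ) - (fourier ((i : ℤ) - j + k) x : ℂ))).re ∂ν =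
        (∫ x, (∑ i ∈ Finset.range M, ∑ j ∈ Finset.range M,
          ((fourier ((i : ℤ) - j) x : ℂ) - (fourier ((i : ℤ) - j + k) x : ℂ))) ∂ν).re :=
      integral_re hint2
    rw [e4, integral_finsetSum _ fun i _ => integrable_finsetSum _ fun j _ => hint i j,
      Complex.re_sum]
    have e5 : ∀ i ∈ Finset.range M, (∫ x, ∑ j ∈ Finset.range M,
          ((fourier ((i : ℤ) - j) x : ℂ) - (fourier ((i : ℤ) - j + k) x : ℂ)) ∂ν).re =
        1 - a.re := by
      intro i hi
      rw [Finset.mem_range] at hi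
      rw [integral_finsetSum _ fun j _ => hint i j, Complex.re_sum]
      have e6 : ∀ j ∈ Finset.range M, (∫ x,
          ((fourier ((i : ℤ) - j) x : ℂ) - (fourier ((i : ℤ) - j + k) x : ℂ)) ∂ν).re =
          if i = j then 1 - a.re else 0 := by
        intro j hj
        rw [Finset.mem_range] at hj
        rw [integral_sub (integrable_fourier ν _) (integrable_fourier ν _), Complex.sub_re,
          hdiff i j]
        have e7 : ((i : ℤ) - j + k) = ((i + k - j : ℕ) : ℤ) := by
          rw [Nat.cast_sub (by omega)]; push_cast; ring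
        rw [e7, h (i + k - j) (by omega) (by omega)]
        by_cases hij : i = j
        · simp [hij]
        · rw [if_neg hij, if_neg hij, if_pos (by omega)]
          ring
      rw [Finset.sum_congr rfl e6, Finset.sum_ite_eq, if_pos (Finset.mem_range.mpr hi)]
    rw [Finset.sum_congr rfl e5, Finset.sum_const, Finset.card_range, nsmul_eq_mul]
  -- the lower bound on the annulus
  set S : Set UnitAddCircle := {x | 1 / (M' : ℝ) ≤ ‖x‖ ∧ ‖x‖ ≤ 1 / (6 * M)} with hS
  have hSm : MeasurableSet S := by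
    apply IsClosed.measurableSet
    exact (isClosed_le continuous_const continuous_norm).inter
      (isClosed_le continuous_norm continuous_const)
  have hAlow : ∀ x ∈ S, (M : ℝ) / 2 ≤ ‖A x‖ := by
    rintro x ⟨-, hx⟩
    obtain ⟨t, rfl, ht⟩ := exists_rep x
    refine le_trans ?_ (Complex.re_le_norm _)
    rw [hA]
    simp only
    rw [Complex.re_sum]
    have : ∀ i ∈ Finset.range M, (1 / 2 : ℝ) ≤ (fourier (i : ℤ) ((t : ℝ) : UnitAddCircle) : ℂ).re := by
      intro i hi
      rw [Finset.mem_range] at hi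
      rw [fourier_re, ← Real.cos_pi_div_three, ← Real.cos_abs (2 * Real.pi * _ * t)]
      apply Real.cos_le_cos_of_nonneg_of_le_pi (abs_nonneg _)
      · linarith [Real.pi_pos]
      · rw [abs_mul, ht]
        have hi' : (i : ℝ) ≤ M := by exact_mod_cast hi.le
        have h0 : |2 * Real.pi * ((i : ℤ) : ℝ)| = 2 * Real.pi * i := by
          rw [abs_of_nonneg (by push_cast; positivity)]; push_cast; ring
        rw [h0]
        calc 2 * Real.pi * i * ‖((t : ℝ) : UnitAddCircle)‖ ≤ 2 * Real.pi * M * (1 / (6 * M)) := by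
              gcongr
          _ = Real.pi / 3 := by field_simp; norm_num
    calc (M : ℝ) / 2 = ∑ i ∈ Finset.range M, (1 / 2 : ℝ) := by
          rw [Finset.sum_const, Finset.card_range, nsmul_eq_mul]; ring
      _ ≤ _ := Finset.sum_le_sum this
  have hWlow : ∀ x ∈ S, (M' : ℝ) / 2 ≤
      ∑ l ∈ Finset.range M', (1 - (fourier ((M + l : ℕ) : ℤ) x : ℂ).re) := by
    rintro x ⟨hx, -⟩
    have h1 := norm_geom M M' x
    have h2 : 0 < ‖x‖ := lt_of_lt_of_le (by positivity) hx
    have h3 : ‖∑ l ∈ Finset.range M', (fourier ((M + l : ℕ) : ℤ) x : ℂ)‖ ≤ M' / 2 := by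
      have h4 : 1 ≤ M' * ‖x‖ := by
        rw [div_le_iff₀ (by positivity)] at hx
        linarith
      have h5 : 0 ≤ ‖∑ l ∈ Finset.range M', (fourier ((M + l : ℕ) : ℤ) x : ℂ)‖ := norm_nonneg _
      by_contra hcon
      push Not at hcon
      nlinarith
    have h4 : (∑ l ∈ Finset.range M', (fourier ((M + l : ℕ) : ℤ) x : ℂ)).re ≤ M' / 2 :=
      le_trans (Complex.re_le_norm _) h3
    rw [Finset.sum_sub_distrib, ← Complex.re_sum, Finset.sum_const, Finset.card_range,
      nsmul_eq_mul]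
    linarith
  have hint : ∀ l, Integrable (fun x => ‖A x‖ ^ 2 * (1 - (fourier ((M + l : ℕ) : ℤ) x : ℂ).re)) ν := by
    intro l
    refine (BoundedContinuousFunction.mkOfCompact
      ⟨fun x => ‖A x‖ ^ 2 * (1 - (fourier ((M + l : ℕ) : ℤ) x : ℂ).re), ?_⟩).integrable ν
    have : Continuous fun x : UnitAddCircle => (fourier ((M + l : ℕ) : ℤ) x : ℂ) := by fun_prop
    fun_prop
  have htot : ∫ x, ∑ l ∈ Finset.range M', ‖A x‖ ^ 2 * (1 - (fourier ((M + l : ℕ) : ℤ) x : ℂ).re) ∂ν =
      M' * (M * (1 - a.re)) := by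
    rw [integral_finsetSum _ fun l _ => hint l]
    have : ∀ l ∈ Finset.range M', ∫ x, ‖A x‖ ^ 2 * (1 - (fourier ((M + l : ℕ) : ℤ) x : ℂ).re) ∂ν =
        M * (1 - a.re) := by
      intro l hl
      rw [Finset.mem_range] at hl
      exact hmain (M + l) (by omega) (by omega)
    rw [Finset.sum_congr rfl this, Finset.sum_const, Finset.card_range, nsmul_eq_mul]
  have hlow : (M : ℝ) ^ 2 / 4 * (M' / 2) * ν.real S ≤
      ∫ x, ∑ l ∈ Finset.range M', ‖A x‖ ^ 2 * (1 - (fourier ((M + l : ℕ) : ℤ) x : ℂ).re) ∂ν := by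
    have h1 : ∫ x, S.indicator (fun _ => (M : ℝ) ^ 2 / 4 * (M' / 2)) x ∂ν =
        (M : ℝ) ^ 2 / 4 * (M' / 2) * ν.real S := by
      rw [integral_indicator hSm, setIntegral_const, smul_eq_mul, mul_comm]
    rw [← h1]
    apply integral_mono
    · exact (integrable_const _).indicator hSm
    · exact integrable_finsetSum _ fun l _ => hint l
    · intro x
      have hnn : ∀ l ∈ Finset.range M', 0 ≤ ‖A x‖ ^ 2 * (1 - (fourier ((M + l : ℕ) : ℤ) x : ℂ).re) := by
        intro l _
        have := Complex.re_le_norm (fourier ((M + l : ℕ) : ℤ) x : ℂ)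
        rw [norm_fourier_one] at this
        have h2 : 0 ≤ 1 - (fourier ((M + l : ℕ) : ℤ) x : ℂ).re := by linarith
        positivity
      by_cases hx : x ∈ S
      · simp only [Set.indicator_of_mem hx]
        rw [← Finset.mul_sum]
        apply mul_le_mul _ (hWlow x hx) (by positivity) (by positivity)
        have := hAlow x hx
        calc (M : ℝ) ^ 2 / 4 = (M / 2) ^ 2 := by ring
          _ ≤ ‖A x‖ ^ 2 := pow_le_pow_left₀ (by positivity) this 2
      · simp only [Set.indicator_of_notMem hx]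
        exact Finset.sum_nonneg hnn
  rw [htot] at hlow
  have h1 : (M : ℝ) ^ 2 / 4 * (M' / 2) * ν.real S ≤ M' * (M * 2) := by
    refine le_trans hlow ?_
    apply mul_le_mul_of_nonneg_left _ (by positivity)
    apply mul_le_mul_of_nonneg_left _ (by positivity)
    linarith
  rw [le_div_iff₀ (by positivity)]
  have hMM : (0 : ℝ) < M * M' := by positivity
  have h2 : (M * M' : ℝ) * (ν.real S * M) ≤ (M * M' : ℝ) * 16 := by nlinarith
  have h3 := le_of_mul_le_mul_left h2 hMM
  linarith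

end Pool.Agent.H237.Primes
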