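import Mathlib
import Pool.Agent.H237.Primes.Fejer
import Pool.Agent.H237.Gap.Finite

/-!
# The first coefficient and the mass of the small balls
-/

namespace Pool.Agent.H237.Primes

open MeasureTheory Set Filter Topology Pool.Agent.H237.Gap

lemma inv_of_primes {ν : Measure UnitAddCircle} {y : ℕ}
    (h : ∀ q : ℕ, q.Prime → q ≤ y → Inv ν q) : ∀ k : ℕ, 1 ≤ k → k ≤ y → Inv ν k := by
  intro k
  induction k using Nat.strong_induction_on with
  | _ k ih =>
    intro hk hky
    rcases Nat.lt_or_ge k 2 with h2 | h2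
    · have : k = 1 := by omega
      subst this
      exact Inv.one ν
    · have hp : (k.minFac).Prime := Nat.minFac_prime (by omega)
      have hd : k.minFac ∣ k := Nat.minFac_dvd k
      obtain ⟨c, hc⟩ := hd
      have hp2 := hp.two_le
      have hcpos : 1 ≤ c := by
        rcases Nat.eq_zero_or_pos c with h0 | h0
        · rw [h0] at hc; omega
        · exact h0
      have hck : c < k := by
        rw [hc]
        nlinarith
      rw [hc]
      refine (h _ hp (le_trans (Nat.minFac_le (by omega)) hky)).mul (ih c hck hcpos (by omega))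

lemma fourier_nsmul (k : ℕ) (n : ℤ) (x : UnitAddCircle) :
    (fourier n (k • x) : ℂ) = fourier ((k : ℤ) * n) x := by
  rw [fourier_apply, fourier_apply, mul_comm, mul_smul, natCast_zsmul]

lemma integral_fourier_inv {ν : Measure UnitAddCircle} {k : ℕ} (h : Inv ν k) (n : ℤ) :
    ∫ x, (fourier ((k : ℤ) * n) x : ℂ) ∂ν = ∫ x, (fourier n x : ℂ) ∂ν := by
  have hc : Continuous fun x : UnitAddCircle => (fourier n x : ℂ) := by fun_prop
  conv_rhs => rw [← h.map_eq]
  rw [integral_map h.measurable.aemeasurable hc.aestronglyMeasurable]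
  congr 1
  ext x
  exact (fourier_nsmul k n x).symm

lemma compare {ν : Measure UnitAddCircle} [IsProbabilityMeasure ν] {y : ℕ} {a : ℂ} (hy : 1 ≤ y)
    (h : ∀ k : ℕ, 1 ≤ k → k ≤ y → ∫ x, (fourier (k : ℤ) x : ℂ) ∂ν = a) {ρ r : ℝ} (hρ : 0 ≤ ρ)
    (hr : 0 < r) :
    ‖a - (ν.real {x | ‖x‖ < ρ} : ℂ)‖ ≤
      2 * Real.pi * y * ρ + 2 * ν.real {x | ρ ≤ ‖x‖ ∧ ‖x‖ < r} + 1 / (2 * y * r) := by
  have hyR : (1 : ℝ) ≤ y := by exact_mod_cast hy
  set D : UnitAddCircle → ℂ := fun x => (y : ℂ)⁻¹ *
    ∑ l ∈ Finset.range y, (fourier ((1 + l : ℕ) : ℤ) x : ℂ) with hD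
  have hDint : Integrable D ν :=
    (integrable_finsetSum _ fun l _ => integrable_fourier ν _).const_mul _
  have hDa : ∫ x, D x ∂ν = a := by
    rw [hD]
    rw [integral_const_mul, integral_finsetSum _ fun l _ => integrable_fourier ν _]
    have : ∀ l ∈ Finset.range y, ∫ x, (fourier ((1 + l : ℕ) : ℤ) x : ℂ) ∂ν = a := by
      intro l hl
      rw [Finset.mem_range] at hl
      exact h (1 + l) (by omega) (by omega)
    rw [Finset.sum_congr rfl this, Finset.sum_const, Finset.card_range, nsmul_eq_mul,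
      ← mul_assoc, inv_mul_cancel₀ (by exact_mod_cast (by omega : y ≠ 0)), one_mul]
  set B : Set UnitAddCircle := {x | ‖x‖ < ρ} with hB
  have hBm : MeasurableSet B := (isOpen_lt continuous_norm continuous_const).measurableSet
  set A : Set UnitAddCircle := {x | ρ ≤ ‖x‖ ∧ ‖x‖ < r} with hA
  have hAm : MeasurableSet A := by
    have : A = {x | ‖x‖ < ρ}ᶜ ∩ {x | ‖x‖ < r} := by
      ext x; simp [hA]
    rw [this]
    exact hBm.compl.inter (isOpen_lt continuous_norm continuous_const).measurableSet
  have hBint : ∫ x, B.indicator (fun _ => (1 : ℂ)) x ∂ν = (ν.real B : ℂ) := by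
    rw [integral_indicator hBm, setIntegral_const, Complex.real_smul, mul_one]
  have h1 : a - (ν.real B : ℂ) = ∫ x, (D x - B.indicator (fun _ => (1 : ℂ)) x) ∂ν := by
    rw [integral_sub hDint ((integrable_const _).indicator hBm), hDa, hBint]
  rw [h1]
  have h2 : ∀ x, ‖D x - B.indicator (fun _ => (1 : ℂ)) x‖ ≤
      2 * Real.pi * y * ρ + (2 * A.indicator (fun _ => (1 : ℝ)) x + 1 / (2 * y * r)) := by
    intro x
    have p1 : 0 ≤ 2 * Real.pi * y * ρ := by positivity
    have p2 : 0 ≤ 1 / (2 * y * r) := by positivity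
    by_cases hxB : x ∈ B
    · have hxA : x ∉ A := by
        intro hx
        exact absurd hxB (not_lt.mpr hx.1)
      rw [Set.indicator_of_mem hxB, Set.indicator_of_notMem hxA, mul_zero, zero_add]
      have e1 : D x - 1 = (y : ℂ)⁻¹ * ∑ l ∈ Finset.range y,
          ((fourier ((1 + l : ℕ) : ℤ) x : ℂ) - 1) := by
        rw [hD]
        simp only
        rw [Finset.sum_sub_distrib, mul_sub, Finset.sum_const, Finset.card_range, nsmul_eq_mul,
          mul_one, inv_mul_cancel₀ (by exact_mod_cast (by omega : y ≠ 0))]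
      rw [e1, norm_mul, norm_inv, Complex.norm_natCast]
      have e2 : ‖∑ l ∈ Finset.range y, ((fourier ((1 + l : ℕ) : ℤ) x : ℂ) - 1)‖ ≤
          ∑ l ∈ Finset.range y, 2 * Real.pi * y * ρ := by
        refine le_trans (norm_sum_le _ _) (Finset.sum_le_sum ?_)
        intro l hl
        rw [Finset.mem_range] at hl
        refine le_trans (norm_fourier_sub_one (1 + l) x) ?_
        have : ((1 + l : ℕ) : ℝ) ≤ y := by exact_mod_cast (by omega : 1 + l ≤ y)
        have hx' : ‖x‖ ≤ ρ := le_of_lt hxB
        gcongr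
      rw [Finset.sum_const, Finset.card_range, nsmul_eq_mul] at e2
      have e3 : (y : ℝ)⁻¹ * ‖∑ l ∈ Finset.range y, ((fourier ((1 + l : ℕ) : ℤ) x : ℂ) - 1)‖ ≤
          (y : ℝ)⁻¹ * (y * (2 * Real.pi * y * ρ)) :=
        mul_le_mul_of_nonneg_left e2 (by positivity)
      rw [← mul_assoc, inv_mul_cancel₀ (by positivity), one_mul] at e3
      linarith
    · rw [Set.indicator_of_notMem hxB, sub_zero]
      have e1 : ‖D x‖ = (y : ℝ)⁻¹ * ‖∑ l ∈ Finset.range y, (fourier ((1 + l : ℕ) : ℤ) x : ℂ)‖ := by
        rw [hD]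
        simp only
        rw [norm_mul, norm_inv, Complex.norm_natCast]
      by_cases hxA : x ∈ A
      · rw [Set.indicator_of_mem hxA]
        have e2 : ‖∑ l ∈ Finset.range y, (fourier ((1 + l : ℕ) : ℤ) x : ℂ)‖ ≤ y := by
          refine le_trans (norm_sum_le _ _) ?_
          simp only [norm_fourier_one, Finset.sum_const, Finset.card_range, nsmul_eq_mul, mul_one]
          exact le_rfl
        have e3 : (y : ℝ)⁻¹ * ‖∑ l ∈ Finset.range y, (fourier ((1 + l : ℕ) : ℤ) x : ℂ)‖ ≤
            (y : ℝ)⁻¹ * y := mul_le_mul_of_nonneg_left e2 (by positivity)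
        rw [inv_mul_cancel₀ (by positivity)] at e3
        rw [e1]
        linarith
      · rw [Set.indicator_of_notMem hxA, mul_zero, zero_add, e1]
        have hxr : r ≤ ‖x‖ := by
          by_contra hcon
          push Not at hcon
          exact hxA ⟨not_lt.mp hxB, hcon⟩
        have e2 := norm_geom 1 y x
        have e3 : ‖∑ l ∈ Finset.range y, (fourier ((1 + l : ℕ) : ℤ) x : ℂ)‖ * (2 * r) ≤ 1 := by
          refine le_trans (mul_le_mul_of_nonneg_left ?_ (norm_nonneg _)) e2
          linarith
        have e4 : (y : ℝ)⁻¹ * ‖∑ l ∈ Finset.range y, (fourier ((1 + l : ℕ) : ℤ) x : ℂ)‖ ≤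
            1 / (2 * y * r) := by
          rw [le_div_iff₀ (by positivity)]
          calc (y : ℝ)⁻¹ * ‖∑ l ∈ Finset.range y, (fourier ((1 + l : ℕ) : ℤ) x : ℂ)‖ *
                (2 * y * r) = ((y : ℝ)⁻¹ * y) *
                (‖∑ l ∈ Finset.range y, (fourier ((1 + l : ℕ) : ℤ) x : ℂ)‖ * (2 * r)) := by ring
            _ ≤ 1 := by rw [inv_mul_cancel₀ (by positivity), one_mul]; exact e3
        linarith
  calc ‖∫ x, (D x - B.indicator (fun _ => (1 : ℂ)) x) ∂ν‖ ≤
        ∫ x, ‖D x - B.indicator (fun _ => (1 : ℂ)) x‖ ∂ν := norm_integral_le_integral_norm _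
    _ ≤ ∫ x, (2 * Real.pi * y * ρ + (2 * A.indicator (fun _ => (1 : ℝ)) x + 1 / (2 * y * r))) ∂ν := by
        apply integral_mono
        · exact (hDint.sub ((integrable_const _).indicator hBm)).norm
        · exact (integrable_const _).add ((((integrable_const _).indicator hAm).const_mul _).add
            (integrable_const _))
        · exact h2
    _ = _ := by
        rw [integral_add (integrable_const _) ((((integrable_const _).indicator hAm).const_mul _).add
            (integrable_const _)), integral_add (((integrable_const _).indicator hAm).const_mul _)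
            (integrable_const _)]
        have e5 : ∫ x, 2 * A.indicator (fun _ => (1 : ℝ)) x ∂ν = 2 * ν.real A := by
          rw [integral_const_mul, integral_indicator hAm, setIntegral_const, smul_eq_mul, mul_one]
        rw [e5]
        simp
        ring

end Pool.Agent.H237.Primes
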