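import Mathlib

/-!
# Enough primes between `z / 4` and `z`
-/

namespace Pool.Agent.H237.Primes

open Set Filter Topology

/-- The primes in `(z / 4, z]`. -/
noncomputable def PS (z : ℝ) : Finset ℕ := (Finset.Ioc ⌊z / 4⌋₊ ⌊z⌋₊).filter Nat.Prime

lemma mem_PS {z : ℝ} (hz : 0 ≤ z) {q : ℕ} (hq : q ∈ PS z) :
    q.Prime ∧ z / 4 < q ∧ (q : ℝ) ≤ z := by
  unfold PS at hq
  rw [Finset.mem_filter, Finset.mem_Ioc] at hq
  obtain ⟨⟨h1, h2⟩, h3⟩ := hq
  refine ⟨h3, ?_, ?_⟩
  · exact (Nat.floor_lt (by positivity)).mp h1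
  · exact le_trans (by exact_mod_cast h2) (Nat.floor_le hz)

lemma theta_sub {z : ℝ} (hz : 1 ≤ z) :
    Chebyshev.theta z - Chebyshev.theta (z / 4) ≤ (PS z).card * Real.log z := by
  unfold Chebyshev.theta PS
  have h1 : (Finset.Ioc 0 ⌊z⌋₊).filter Nat.Prime =
      (Finset.Ioc 0 ⌊z / 4⌋₊).filter Nat.Prime ∪ (Finset.Ioc ⌊z / 4⌋₊ ⌊z⌋₊).filter Nat.Prime := by
    rw [← Finset.filter_union, Finset.Ioc_union_Ioc_eq_Ioc (Nat.zero_le _)]
    exact Nat.floor_mono (by linarith)
  rw [h1, Finset.sum_union]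
  · rw [add_sub_cancel_left]
    calc ∑ p ∈ (Finset.Ioc ⌊z / 4⌋₊ ⌊z⌋₊).filter Nat.Prime, Real.log p ≤
          ∑ p ∈ (Finset.Ioc ⌊z / 4⌋₊ ⌊z⌋₊).filter Nat.Prime, Real.log z := by
          apply Finset.sum_le_sum
          intro p hp
          have := mem_PS (by linarith) hp
          have hp0 : (0 : ℝ) < p := by exact_mod_cast this.1.pos
          exact Real.log_le_log hp0 this.2.2
      _ = _ := by rw [Finset.sum_const, nsmul_eq_mul]
  · rw [Finset.disjoint_left]
    intro p hp hp'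
    rw [Finset.mem_filter, Finset.mem_Ioc] at hp hp'
    omega

/-- Eventually there are more than `40 log z` primes in `(z / 4, z]`. -/
lemma many_primes : ∀ᶠ z : ℝ in atTop, 40 * Real.log z ≤ (PS z).card := by
  have h1 : ∀ᶠ z : ℝ in atTop, Real.log z ≤ z ^ (1 / 8 : ℝ) := by
    have h2 := (isLittleO_log_rpow_atTop (show (0 : ℝ) < 1 / 8 by norm_num)).def
      (show (0 : ℝ) < 1 by norm_num)
    filter_upwards [h2, eventually_ge_atTop 1] with z hz hz1
    rw [Real.norm_of_nonneg (Real.log_nonneg hz1), Real.norm_of_nonneg (by positivity)] at hz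
    linarith
  have h3 : ∀ᶠ z : ℝ in atTop, 4 ≤ z ^ (1 / 8 : ℝ) :=
    (tendsto_rpow_atTop (by norm_num : (0 : ℝ) < 1 / 8)).eventually_ge_atTop 4
  filter_upwards [h1, h3, eventually_ge_atTop 2] with z hz1 hz2 hz3
  set w := z ^ (1 / 8 : ℝ) with hw
  have hw0 : 0 < w := by positivity
  have hz8 : z = w ^ 8 := by
    rw [hw, ← Real.rpow_natCast, ← Real.rpow_mul (by linarith)]
    norm_num
  have hsq : Real.sqrt z = w ^ 4 := by
    rw [hz8, show w ^ 8 = (w ^ 4) ^ 2 by ring, Real.sqrt_sq (by positivity)]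
  have hlogz : 0 < Real.log z := Real.log_pos (by linarith)
  have ht1 := Chebyshev.theta_ge' (x := z) (by linarith)
  have ht2 := Chebyshev.theta_le_log4_mul_x (x := z / 4) (by linarith)
  have ht3 := theta_sub (z := z) (by linarith)
  have hl4 : Real.log 4 = 2 * Real.log 2 := by
    rw [show (4 : ℝ) = 2 ^ 2 by norm_num, Real.log_pow]; norm_num
  have hl2 : 0.6931471803 < Real.log 2 := Real.log_two_gt_d9
  have hl2' : Real.log 2 < 0.6931471808 := Real.log_two_lt_d9
  have hlz2 : Real.log (z + 2) ≤ w + 1 := by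
    have : Real.log (z + 2) ≤ Real.log (2 * z) := Real.log_le_log (by linarith) (by linarith)
    rw [Real.log_mul (by norm_num) (by linarith)] at this
    linarith
  rw [hsq] at ht1
  have hstep : 40 * Real.log z * Real.log z ≤ (PS z).card * Real.log z := by
    refine le_trans ?_ ht3
    have e1 : Real.log z * Real.log z ≤ w * w := mul_le_mul hz1 hz1 hlogz.le hw0.le
    have e2 : 2 * w ^ 4 * Real.log z ≤ 2 * w ^ 4 * w := by gcongr
    rw [hl4] at ht2
    have e3 : (z - 1) * Real.log 2 - (2 * Real.log 2) * (z / 4) - (w + 1) - 2 * w ^ 4 * w ≤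
        Chebyshev.theta z - Chebyshev.theta (z / 4) := by linarith
    refine le_trans ?_ e3
    have e4 : (z - 1) * Real.log 2 - (2 * Real.log 2) * (z / 4) = Real.log 2 * (w ^ 8 / 2 - 1) := by
      rw [hz8]; ring
    rw [e4]
    have e5 : 0.6931471803 * (w ^ 8 / 2 - 1) ≤ Real.log 2 * (w ^ 8 / 2 - 1) := by
      apply mul_le_mul_of_nonneg_right hl2.le
      have : (4 : ℝ) ^ 8 ≤ w ^ 8 := pow_le_pow_left₀ (by norm_num) hz2 8
      linarith
    have e6 : 64 * w ^ 5 ≤ w ^ 8 := by
      have : (4 : ℝ) ^ 3 ≤ w ^ 3 := pow_le_pow_left₀ (by norm_num) hz2 3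
      calc 64 * w ^ 5 ≤ w ^ 3 * w ^ 5 := by
            apply mul_le_mul_of_nonneg_right _ (by positivity)
            linarith
        _ = w ^ 8 := by ring
    have e7 : 64 * w ^ 2 ≤ w ^ 5 := by
      have : (4 : ℝ) ^ 3 ≤ w ^ 3 := pow_le_pow_left₀ (by norm_num) hz2 3
      calc 64 * w ^ 2 ≤ w ^ 3 * w ^ 2 := by
            apply mul_le_mul_of_nonneg_right _ (by positivity)
            linarith
        _ = w ^ 5 := by ring
    have e8 : w ≤ w ^ 2 := by nlinarith
    have e9 : 1 ≤ w := by linarith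
    have e10 : w ^ 2 = w * w := by ring
    have e11 : w ^ 4 * w = w ^ 5 := by ring
    nlinarith
  exact le_of_mul_le_mul_right hstep hlogz

/-- A simple form of the Chebyshev bound. -/
lemma pi_lower : ∀ᶠ n : ℕ in atTop, 3 / 5 * ((n : ℝ) / Real.log n) ≤ Nat.primeCounting n := by
  have h1 : ∀ᶠ z : ℝ in atTop, Real.log z ≤ z / 100 := by
    have h2 := (Real.isLittleO_log_id_atTop).def (show (0 : ℝ) < 1 / 100 by norm_num)
    filter_upwards [h2, eventually_ge_atTop 1] with z hz hz1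
    rw [Real.norm_of_nonneg (Real.log_nonneg hz1), id, Real.norm_of_nonneg (by linarith)] at hz
    linarith
  filter_upwards [tendsto_natCast_atTop_atTop.eventually h1,
    tendsto_natCast_atTop_atTop.eventually (eventually_ge_atTop (100 : ℝ))] with n hn1 hn2
  have h3 := Chebyshev.pi_ge n
  have hlog : 0 < Real.log n := Real.log_pos (by linarith)
  refine le_trans ?_ h3
  rw [mul_div_assoc', div_le_div_iff_of_pos_right hlog]
  have hl2 : 0.6931471803 < Real.log 2 := Real.log_two_gt_d9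
  have hl2' : Real.log 2 < 0.6931471808 := Real.log_two_lt_d9
  have h4 : Real.log (n + 1) ≤ Real.log n + Real.log 2 := by
    rw [← Real.log_mul (by linarith) (by norm_num)]
    apply Real.log_le_log (by linarith)
    linarith
  nlinarith

end Pool.Agent.H237.Primes
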