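import Mathlib
import Pool.Agent.H237.Gap.Iter

/-!
# Finite summation of the key inequality, and one scale with a general family of multipliers
-/

namespace Pool.Agent.H237.Primes

open MeasureTheory Set Filter Topology Pool.Agent.H237.Gap

/-- Finite form of the summation. -/
lemma finite_sum {b e : ℕ → ℝ} (hb : Antitone b) {J K : ℕ} (hJK : J + 20 ≤ K) {δ E : ℝ}
    (h : ∀ j, J ≤ j → j + 20 ≤ K → b (j + 4) - b (j + 5) ≤ 4 / 85 * (b j - b (j + 20)) + e j)
    (hδ : b J - b (J + 4) ≤ δ) (hE : ∑ i ∈ Finset.range (K - 19 - J), e (J + i) ≤ E) :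
    b J - b K ≤ 17 * (δ + E + (b (K - 16) - b K)) := by
  obtain ⟨n, rfl⟩ : ∃ n, K = J + 20 + n := ⟨K - (J + 20), by omega⟩
  have e0 : J + 20 + n - 19 - J = n + 1 := by omega
  rw [e0] at hE
  have t1 : b (J + 4) - b (J + 4 + (n + 1)) =
      ∑ i ∈ Finset.range (n + 1), (b (J + i + 4) - b (J + i + 5)) := by
    have := Finset.sum_range_sub' (fun l => b (J + 4 + l)) (n + 1)
    simp only [add_zero] at this
    rw [← this]
    apply Finset.sum_congr rfl
    intro i _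
    have e1 : J + i + 4 = J + 4 + i := by ring
    have e2 : J + i + 5 = J + 4 + (i + 1) := by ring
    rw [e1, e2]
  have t2 : ∑ i ∈ Finset.range (n + 1), (b (J + i + 4) - b (J + i + 5)) ≤
      ∑ i ∈ Finset.range (n + 1), (4 / 85 * (b (J + i) - b (J + i + 20)) + e (J + i)) := by
    apply Finset.sum_le_sum
    intro i hi
    rw [Finset.mem_range] at hi
    exact h (J + i) (by omega) (by omega)
  have t3 : ∑ i ∈ Finset.range (n + 1), (4 / 85 * (b (J + i) - b (J + i + 20)) + e (J + i)) ≤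
      16 / 17 * (b J - b (J + 20 + n)) + E := by
    rw [Finset.sum_add_distrib, ← Finset.mul_sum, sum_shift]
    have a1 : ∑ l ∈ Finset.range 20, (b (J + l) - b (J + l + (n + 1))) ≤
        ∑ l ∈ Finset.range 20, (b J - b (J + 20 + n)) := by
      apply Finset.sum_le_sum
      intro l hl
      rw [Finset.mem_range] at hl
      have := hb (show J ≤ J + l by omega)
      have := hb (show J + l + (n + 1) ≤ J + 20 + n by omega)
      linarith
    rw [Finset.sum_const, Finset.card_range, nsmul_eq_mul] at a1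
    push_cast at a1
    linarith
  have t4 : b (J + 4 + (n + 1)) - b (J + 20 + n) ≤ b (J + 20 + n - 16) - b (J + 20 + n) := by
    have := hb (show J + 20 + n - 16 ≤ J + 4 + (n + 1) by omega)
    linarith
  linarith

/-- There is a late block of scales with little mass. -/
lemma exists_block {b : ℕ → ℝ} (hb : Antitone b) (h0 : ∀ j, 0 ≤ b j) (h1 : ∀ j, b j ≤ 1)
    (K₀ L : ℕ) (hL : 0 < L) :
    ∃ K, K₀ + 16 ≤ K ∧ K ≤ K₀ + 16 * L ∧ b (K - 16) - b K ≤ 1 / L := by
  by_contra hcon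
  push Not at hcon
  have hLR : (0 : ℝ) < L := by exact_mod_cast hL
  have key : ∀ i : ℕ, i ≤ L → (i : ℝ) * (1 / L) ≤ b K₀ - b (K₀ + 16 * i) := by
    intro i
    induction i with
    | zero => intro _; simp
    | succ i ih =>
      intro hi
      have h2 := ih (by omega)
      have h3 := hcon (K₀ + 16 * (i + 1)) (by omega) (by omega)
      have e1 : K₀ + 16 * (i + 1) - 16 = K₀ + 16 * i := by omega
      rw [e1] at h3
      push_cast
      linarith
  have hlast := hcon (K₀ + 16 * L) (by omega) le_rfl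
  have h2 := key (L - 1) (by omega)
  have e1 : K₀ + 16 * L - 16 = K₀ + 16 * (L - 1) := by omega
  rw [e1] at hlast
  have e2 : ((L - 1 : ℕ) : ℝ) = L - 1 := by
    rw [Nat.cast_sub (by omega)]; simp
  rw [e2] at h2
  have h3 := h0 (K₀ + 16 * L)
  have h4 := h1 K₀
  have h5 : (L : ℝ) * (1 / L) = 1 := by field_simp
  nlinarith

/-- One scale, with a general family of pairwise coprime multipliers. -/
lemma b_step' (μ : Measure UnitAddCircle) [IsProbabilityMeasure μ] {m : ℕ} (hm : 1 ≤ m)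
    {ι : Type*} [Fintype ι] [DecidableEq ι] (hcard : Fintype.card ι = 256 * m) {j : ℕ} (hj : 1 ≤ j)
    {u : ι → ℕ}
    (hu : ∀ i, Real.exp ((5 / 4 : ℝ) ^ (j + 4) / 2 - (5 / 4 : ℝ) ^ (j + 4) / 2 / (4 * m)) ≤ u i)
    (hu' : ∀ i, (u i : ℝ) ≤ Real.exp ((5 / 4 : ℝ) ^ (j + 4) / 2))
    (hco : ∀ i j, i ≠ j → Nat.Coprime (u i) (u j)) (hinv : ∀ i, Inv μ (u i)) :
    b μ (j + 4) - b μ (j + 5) ≤ 4 / 85 * (b μ j - b μ (j + 20)) + (1 / 2) ^ m := by
  set H : ℝ := (5 / 4 : ℝ) ^ (j + 4) / 2 with hHdef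
  have hH : 2 * Real.log 2 ≤ H := by
    have h1 : Real.log 2 ≤ 0.6931471808 := Real.log_two_lt_d9.le
    have h3 : (5 / 4 : ℝ) ^ 5 ≤ (5 / 4 : ℝ) ^ (j + 4) :=
      pow_le_pow_right₀ (by norm_num) (by omega)
    rw [hHdef]
    norm_num at h3 ⊢
    linarith
  have h := key μ (n := 64) (by norm_num) hm (ι := ι) (by rw [hcard]) hH hu hu' hco hinv
  have e1 : 2 * H = (5 / 4 : ℝ) ^ (j + 4) := by rw [hHdef]; ring
  have e2 : 5 / 2 * H = (5 / 4 : ℝ) ^ (j + 5) := by rw [hHdef, pow_succ _ (j + 4)]; ring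
  rw [e1, e2] at h
  have hpj : (0 : ℝ) < (5 / 4 : ℝ) ^ j := by positivity
  have l1 : g μ (Real.exp (-H)) ≤ g μ (Real.exp (-((5 / 4 : ℝ) ^ j))) := by
    apply g_mono
    apply Real.exp_le_exp.mpr
    rw [hHdef, pow_add]
    norm_num
    linarith
  have l2 : g μ (Real.exp (-((5 / 4 : ℝ) ^ (j + 20)))) ≤
      g μ (Real.exp (-(((64 : ℕ) + 1) * H))) := by
    apply g_mono
    apply Real.exp_le_exp.mpr
    rw [hHdef, pow_add, pow_add]
    norm_num
    linarith
  have hx : 0 ≤ g μ (Real.exp (-((5 / 4 : ℝ) ^ (j + 4)))) - g μ (Real.exp (-((5 / 4 : ℝ) ^ (j + 5)))) := by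
    have := b_antitone μ (show j + 4 ≤ j + 5 by omega)
    unfold b at this
    linarith
  have hm' : (1 : ℝ) ≤ m := by exact_mod_cast hm
  have hk : (1 : ℝ) / (4 * 64 * m : ℕ) ≤ 1 / 256 := by
    push_cast
    apply one_div_le_one_div_of_le (by norm_num)
    linarith
  have hpow : (0 : ℝ) ≤ (1 / 2) ^ m := by positivity
  unfold b
  have h4 : (1 - 1 / 256 : ℝ) * (g μ (Real.exp (-((5 / 4 : ℝ) ^ (j + 4)))) -
      g μ (Real.exp (-((5 / 4 : ℝ) ^ (j + 5))))) ≤
      3 / 64 * (g μ (Real.exp (-((5 / 4 : ℝ) ^ j))) - g μ (Real.exp (-((5 / 4 : ℝ) ^ (j + 20))))) +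
        1 / 4 * (1 / 2) ^ m := by
    calc (1 - 1 / 256 : ℝ) * (g μ (Real.exp (-((5 / 4 : ℝ) ^ (j + 4)))) -
      g μ (Real.exp (-((5 / 4 : ℝ) ^ (j + 5))))) ≤ (1 - 1 / (4 * 64 * m : ℕ)) *
      (g μ (Real.exp (-((5 / 4 : ℝ) ^ (j + 4)))) -
      g μ (Real.exp (-((5 / 4 : ℝ) ^ (j + 5))))) :=
          mul_le_mul_of_nonneg_right (by linarith) hx
      _ ≤ _ := h
      _ ≤ _ := by
        push_cast at l2 ⊢
        linarith
  linarith

end Pool.Agent.H237.Primes
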