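import Mathlib
import Pool.Agent.H237.Primes.Cheb
import Pool.Agent.H237.Primes.Tele
import Pool.Agent.H237.Primes.Compare

/-!
# The two kinds of scales
-/

namespace Pool.Agent.H237.Primes

open MeasureTheory Set Filter Topology Pool.Agent.H237.Gap

lemma log_four : Real.log 4 = 2 * Real.log 2 := by
  rw [show (4 : ℝ) = 2 ^ 2 by norm_num, Real.log_pow]; norm_num

lemma log_four_lt : Real.log 4 < 1.3862943616 := by
  rw [log_four]
  have := Real.log_two_lt_d9
  linarith

/-- For heights `H ≥ 0.39 log y` there are many powers, with a common exponent, of primes up to `y`,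
very close to `exp H` on the logarithmic scale. -/
lemma family_A : ∀ᶠ y : ℕ in atTop, ∀ H : ℝ, 39 / 100 * Real.log y ≤ H →
    ∃ (s : Finset ℕ) (l : ℕ), s.card = 256 * ⌊Real.log y / 25⌋₊ ∧
      (∀ q ∈ s, q.Prime ∧ q ≤ y) ∧
      ∀ q ∈ s, Real.exp (H - H / (4 * (⌊Real.log y / 25⌋₊ : ℝ))) ≤ ((q ^ l : ℕ) : ℝ) ∧
        ((q ^ l : ℕ) : ℝ) ≤ Real.exp H := by
  obtain ⟨z₀, hz₀⟩ := eventually_atTop.mp many_primes
  have hlt : Tendsto (fun y : ℕ => Real.log (y : ℝ)) atTop atTop :=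
    Real.tendsto_log_atTop.comp tendsto_natCast_atTop_atTop
  filter_upwards [hlt.eventually (eventually_ge_atTop (25 : ℝ)),
    hlt.eventually (eventually_ge_atTop (100 / 28 * max (Real.log z₀) 0 : ℝ)),
    tendsto_natCast_atTop_atTop.eventually (eventually_ge_atTop (2 : ℝ))] with y hy1 hy2 hy3 H hH
  set ℓ := Real.log y with hℓ
  have hℓ0 : 0 < ℓ := by linarith
  have hH0 : 0 < H := by nlinarith
  set l := ⌈H / ℓ⌉₊ with hl
  have hl1 : H / ℓ ≤ l := Nat.le_ceil _
  have hl2 : (l : ℝ) < H / ℓ + 1 := Nat.ceil_lt_add_one (by positivity)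
  have hl0 : (0 : ℝ) < l := lt_of_lt_of_le (by positivity) hl1
  set h := H / l with hh
  have hHl : H = l * h := by rw [hh]; field_simp
  have hh1 : h ≤ ℓ := by
    rw [hh, div_le_iff₀ hl0]
    rw [div_le_iff₀ hℓ0] at hl1
    linarith
  have hh2 : 28 / 100 * ℓ ≤ h := by
    rw [hh, le_div_iff₀ hl0]
    have h1 : 28 / 100 * ℓ * l ≤ 28 / 100 * ℓ * (H / ℓ + 1) := by
      apply mul_le_mul_of_nonneg_left hl2.le; positivity
    have h2 : 28 / 100 * ℓ * (H / ℓ + 1) = 28 / 100 * H + 28 / 100 * ℓ := by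
      field_simp
    linarith
  have hh0 : 0 < h := by nlinarith
  set z := Real.exp h with hz
  have hlogz : Real.log z = h := Real.log_exp h
  have hzz : z₀ ≤ z := by
    rcases le_or_gt z₀ 0 with h0 | h0
    · exact le_trans h0 (Real.exp_pos _).le
    · rw [hz, ← Real.log_le_iff_le_exp h0]
      have := le_max_left (Real.log z₀) 0
      nlinarith
  have hcard := hz₀ z hzz
  rw [hlogz] at hcard
  have hm : (⌊ℓ / 25⌋₊ : ℝ) ≤ ℓ / 25 := Nat.floor_le (by positivity)
  have hm1 : 1 ≤ ⌊ℓ / 25⌋₊ := by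
    rw [Nat.one_le_floor_iff, le_div_iff₀ (by norm_num)]
    linarith
  have hm1R : (1 : ℝ) ≤ ⌊ℓ / 25⌋₊ := by exact_mod_cast hm1
  have hle : 256 * ⌊ℓ / 25⌋₊ ≤ (PS z).card := by
    have : ((256 * ⌊ℓ / 25⌋₊ : ℕ) : ℝ) ≤ (PS z).card := by
      push_cast
      refine le_trans ?_ hcard
      linarith
    exact_mod_cast this
  obtain ⟨s, hs1, hs2⟩ := Finset.exists_subset_card_eq hle
  refine ⟨s, l, hs2, ?_, ?_⟩
  · intro q hq
    obtain ⟨h1, -, h3⟩ := mem_PS (Real.exp_pos _).le (hs1 hq)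
    refine ⟨h1, ?_⟩
    have : (q : ℝ) ≤ y := by
      refine le_trans h3 ?_
      rw [← Real.exp_log (show (0 : ℝ) < y by linarith)]
      exact Real.exp_le_exp.mpr hh1
    exact_mod_cast this
  · intro q hq
    obtain ⟨h1, h2, h3⟩ := mem_PS (Real.exp_pos _).le (hs1 hq)
    have hq0 : (0 : ℝ) < q := by exact_mod_cast h1.pos
    push_cast
    constructor
    · have e1 : Real.exp (H - H / (4 * (⌊ℓ / 25⌋₊ : ℝ))) ≤ Real.exp (l * (h - Real.log 4)) := by
        apply Real.exp_le_exp.mpr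
        have e2 : l * Real.log 4 ≤ H / (4 * (⌊ℓ / 25⌋₊ : ℝ)) := by
          rw [le_div_iff₀ (by positivity), hHl, mul_assoc]
          apply mul_le_mul_of_nonneg_left _ hl0.le
          have := log_four_lt
          have h4 : 0 < Real.log 4 := Real.log_pos (by norm_num)
          calc Real.log 4 * (4 * (⌊ℓ / 25⌋₊ : ℝ)) ≤ 1.3862943616 * (4 * (ℓ / 25)) := by gcongr
            _ ≤ h := by linarith
        rw [hHl] at e2 ⊢
        linarith
      refine le_trans e1 ?_
      rw [Real.exp_nat_mul]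
      apply pow_le_pow_left₀ (Real.exp_pos _).le
      rw [Real.exp_sub, Real.exp_log (by norm_num)]
      exact h2.le
    · calc (q : ℝ) ^ l ≤ z ^ l := pow_le_pow_left₀ hq0.le h3 l
        _ = Real.exp H := by rw [hz, ← Real.exp_nat_mul, ← hHl]

/-- The inequality at the scale `j`, first kind. -/
lemma step_A : ∀ᶠ y : ℕ in atTop, ∀ (ν : Measure UnitAddCircle) [IsProbabilityMeasure ν],
    (∀ q : ℕ, q.Prime → q ≤ y → Inv ν q) → ∀ j : ℕ, 1 ≤ j →
    39 / 100 * Real.log y ≤ (5 / 4 : ℝ) ^ (j + 4) / 2 →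
    b ν (j + 4) - b ν (j + 5) ≤ 4 / 85 * (b ν j - b ν (j + 20)) + (1 / 2) ^ ⌊Real.log y / 25⌋₊ := by
  have hlt : Tendsto (fun y : ℕ => Real.log (y : ℝ)) atTop atTop :=
    Real.tendsto_log_atTop.comp tendsto_natCast_atTop_atTop
  filter_upwards [family_A, hlt.eventually (eventually_ge_atTop (25 : ℝ))] with y hy hy1 ν _ hinv j
    hj hH
  obtain ⟨s, l, hs, hs1, hs2⟩ := hy _ hH
  have hm1 : 1 ≤ ⌊Real.log y / 25⌋₊ := by
    rw [Nat.one_le_floor_iff, le_div_iff₀ (by norm_num)]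
    linarith
  refine b_step' ν hm1 (ι := s) (by simpa using hs) hj (u := fun q => (q : ℕ) ^ l)
    (fun i => (hs2 i i.2).1) (fun i => (hs2 i i.2).2) ?_ ?_
  · intro i i' hne
    apply Nat.Coprime.pow
    exact (Nat.coprime_primes (hs1 i i.2).1 (hs1 i' i'.2).1).mpr
      (fun h => hne (Subtype.ext h))
  · intro i
    exact (hinv i (hs1 i i.2).1 (hs1 i i.2).2).pow _

/-- The inequality at the scale `j`, second kind. -/
lemma step_B {y : ℕ} (hy : 2 ≤ y) (hπ : 1 ≤ Nat.primeCounting y / 256)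
    (ν : Measure UnitAddCircle) [IsProbabilityMeasure ν]
    (hinv : ∀ q : ℕ, q.Prime → q ≤ y → Inv ν q) {j : ℕ} (hj1 : 1 ≤ j)
    (hj : 10 * Real.log y ≤ j) :
    b ν (j + 4) - b ν (j + 5) ≤ 4 / 85 * (b ν j - b ν (j + 20)) +
      (1 / 2) ^ (Nat.primeCounting y / 256) := by
  have hyR : (2 : ℝ) ≤ y := by exact_mod_cast hy
  have hℓ : 0 < Real.log y := Real.log_pos (by linarith)
  have hcard : ((Finset.Icc 1 y).filter Nat.Prime).card = Nat.primeCounting y := by
    rw [Nat.primeCounting, Nat.primeCounting', Nat.count_eq_card_filter_range]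
    congr 1
    ext q
    simp only [Finset.mem_filter, Finset.mem_Icc, Finset.mem_range]
    constructor
    · rintro ⟨⟨_, h1⟩, h2⟩
      exact ⟨by omega, h2⟩
    · rintro ⟨h1, h2⟩
      exact ⟨⟨h2.pos, by omega⟩, h2⟩
  have hle : 256 * (Nat.primeCounting y / 256) ≤ ((Finset.Icc 1 y).filter Nat.Prime).card := by
    rw [hcard]
    exact Nat.mul_div_le _ _
  obtain ⟨s, hs1, hs2⟩ := Finset.exists_subset_card_eq hle
  have hs3 : ∀ q ∈ s, q.Prime ∧ q ≤ y := by
    intro q hq
    have := hs1 hq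
    rw [Finset.mem_filter, Finset.mem_Icc] at this
    exact ⟨this.2, this.1.2⟩
  apply b_step ν hπ s hs2 (fun q hq => (hs3 q hq).1.two_le) _
    (fun q hq => hinv q (hs3 q hq).1 (hs3 q hq).2) hj1
  · intro q hq
    have hq0 : (0 : ℝ) < q := by exact_mod_cast (hs3 q hq).1.pos
    have hqy : (q : ℝ) ≤ y := by exact_mod_cast (hs3 q hq).2
    have h1 : Real.log q ≤ Real.log y := Real.log_le_log hq0 hqy
    have hπR : (1 : ℝ) ≤ (Nat.primeCounting y / 256 : ℕ) := by exact_mod_cast hπ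
    rw [le_div_iff₀ (by positivity), le_div_iff₀ (by norm_num)]
    have h2 : ((Nat.primeCounting y / 256 : ℕ) : ℝ) ≤ y / 256 := by
      have h3 : Nat.primeCounting y ≤ y := by
        rw [← hcard]
        refine le_trans (Finset.card_filter_le _ _) ?_
        simp
      have h4 : ((Nat.primeCounting y / 256 : ℕ) : ℝ) ≤ (Nat.primeCounting y : ℝ) / 256 :=
        Nat.cast_div_le
      have h5 : (Nat.primeCounting y : ℝ) ≤ y := by exact_mod_cast h3
      linarith
    have h3 : Real.log y ≤ y := by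
      have := Real.log_le_sub_one_of_pos (show (0 : ℝ) < y by linarith)
      linarith
    have h4 : (y : ℝ) ^ 2 ≤ (5 / 4 : ℝ) ^ j := by
      rw [← Real.log_le_log_iff (by positivity) (by positivity), Real.log_pow, Real.log_pow]
      have h5 : 1 / 5 ≤ Real.log (5 / 4) := by
        have := Real.one_sub_inv_le_log_of_pos (show (0 : ℝ) < 5 / 4 by norm_num)
        norm_num at this
        linarith
      push_cast
      nlinarith
    have h5 : (5 / 4 : ℝ) ^ j ≤ (5 / 4 : ℝ) ^ (j + 4) := pow_le_pow_right₀ (by norm_num) (by omega)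
    have h6 : Real.log q * (4 * ((Nat.primeCounting y / 256 : ℕ) : ℝ)) * 2 ≤
        y * (4 * (y / 256)) * 2 := by
      have h7 : 0 ≤ Real.log q := Real.log_nonneg (by exact_mod_cast (hs3 q hq).1.one_lt.le)
      have h8 : Real.log q ≤ y := by linarith
      gcongr
    nlinarith
  · intro p hp q hq hne
    exact (Nat.coprime_primes (hs3 p hp).1 (hs3 q hq).1).mpr hne

end Pool.Agent.H237.Primes
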