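import Mathlib
import Pool.Agent.H237.Primes.Scales

/-!
# Measures invariant under the multiplications by all primes up to `y`
-/

namespace Pool.Agent.H237.Primes

open MeasureTheory Set Filter Topology Pool.Agent.H237.Gap

lemma g_sub (ν : Measure UnitAddCircle) [IsFiniteMeasure ν] {r r' : ℝ} (h : r' ≤ r) :
    g ν r - g ν r' = ν.real {x | r' ≤ ‖x‖ ∧ ‖x‖ < r} := by
  unfold g
  have h1 : {x : UnitAddCircle | ‖x‖ < r} = {x | ‖x‖ < r'} ∪ {x | r' ≤ ‖x‖ ∧ ‖x‖ < r} := by
    ext x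
    simp only [mem_ofPred_eq, mem_union]
    constructor
    · intro hx
      rcases lt_or_ge ‖x‖ r' with h2 | h2
      · exact Or.inl h2
      · exact Or.inr ⟨h2, hx⟩
    · rintro (h2 | h2)
      · exact lt_of_lt_of_le h2 h
      · exact h2.2
  have h3 : Disjoint {x : UnitAddCircle | ‖x‖ < r'} {x | r' ≤ ‖x‖ ∧ ‖x‖ < r} := by
    rw [Set.disjoint_left]
    intro x hx hx'
    exact absurd hx (not_lt.mpr hx'.1)
  rw [h1, measureReal_union h3]
  · ring
  · have : {x : UnitAddCircle | r' ≤ ‖x‖ ∧ ‖x‖ < r} = {x | ‖x‖ < r'}ᶜ ∩ {x | ‖x‖ < r} := by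
      ext x; simp
    rw [this]
    exact (isOpen_lt continuous_norm continuous_const).measurableSet.compl.inter
      (isOpen_lt continuous_norm continuous_const).measurableSet

lemma b_sub (ν : Measure UnitAddCircle) [IsFiniteMeasure ν] {i j : ℕ} (h : i ≤ j) :
    b ν i - b ν j = ν.real {x | Real.exp (-((5 / 4 : ℝ) ^ j)) ≤ ‖x‖ ∧
      ‖x‖ < Real.exp (-((5 / 4 : ℝ) ^ i))} := by
  unfold b
  rw [sub_sub_sub_cancel_right, g_sub]
  apply Real.exp_le_exp.mpr
  have : (5 / 4 : ℝ) ^ i ≤ (5 / 4 : ℝ) ^ j := pow_le_pow_right₀ (by norm_num) h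
  linarith

/-- The elementary inequalities between the parameters. -/
structure Good (y : ℕ) : Prop where
  y2 : 2 ≤ y
  l1 : 100 ≤ Real.log y
  l2 : 100000 * Real.log y ^ 2 ≤ y
  l3 : (20 * Real.log y + 2) * Real.exp (-(277 / 10000 * Real.log y)) ≤ Real.exp (-(Real.log y / 50))
  p : 3 / 5 * ((y : ℝ) / Real.log y) ≤ Nat.primeCounting y
  A : ∀ (ν : Measure UnitAddCircle) [IsProbabilityMeasure ν],
    (∀ q : ℕ, q.Prime → q ≤ y → Inv ν q) → ∀ j : ℕ, 1 ≤ j →
    39 / 100 * Real.log y ≤ (5 / 4 : ℝ) ^ (j + 4) / 2 →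
    b ν (j + 4) - b ν (j + 5) ≤ 4 / 85 * (b ν j - b ν (j + 20)) + (1 / 2) ^ ⌊Real.log y / 25⌋₊

lemma eventually_good : ∀ᶠ y : ℕ in atTop, Good y := by
  have hlt : Tendsto (fun y : ℕ => Real.log (y : ℝ)) atTop atTop :=
    Real.tendsto_log_atTop.comp tendsto_natCast_atTop_atTop
  have e2 : ∀ᶠ z : ℝ in atTop, 100000 * Real.log z ^ 2 ≤ z := by
    have h2 := (Real.isLittleO_pow_log_id_atTop (n := 2)).def (show (0 : ℝ) < 1 / 100000 by norm_num)
    filter_upwards [h2, eventually_ge_atTop 1] with z hz hz1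
    rw [Real.norm_of_nonneg (by positivity), id, Real.norm_of_nonneg (by linarith)] at hz
    linarith
  have e3 : ∀ᶠ l : ℝ in atTop, (20 * l + 2) * Real.exp (-(277 / 10000 * l)) ≤
      Real.exp (-(l / 50)) := by
    have h2 : Tendsto (fun l : ℝ => (77 / 10000 * l) ^ 1 * Real.exp (-(77 / 10000 * l))) atTop
        (𝓝 0) := by
      have h3 : Tendsto (fun l : ℝ => 77 / 10000 * l) atTop atTop :=
        tendsto_id.const_mul_atTop (by norm_num)
      exact (Real.tendsto_pow_mul_exp_neg_atTop_nhds_zero 1).comp h3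
    filter_upwards [h2.eventually (gt_mem_nhds (show (0 : ℝ) < 1 / 10000 by norm_num)),
      eventually_ge_atTop 1] with l hl hl1
    have h4 : (20 * l + 2) * Real.exp (-(77 / 10000 * l)) ≤ 1 := by
      have h5 := Real.exp_pos (-(77 / 10000 * l))
      rw [pow_one] at hl
      nlinarith
    have h6 : Real.exp (-(277 / 10000 * l)) = Real.exp (-(77 / 10000 * l)) * Real.exp (-(l / 50)) := by
      rw [← Real.exp_add]
      congr 1
      ring
    rw [h6, ← mul_assoc]
    calc (20 * l + 2) * Real.exp (-(77 / 10000 * l)) * Real.exp (-(l / 50)) ≤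
          1 * Real.exp (-(l / 50)) := mul_le_mul_of_nonneg_right h4 (Real.exp_pos _).le
      _ = _ := one_mul _
  filter_upwards [eventually_ge_atTop 2, hlt.eventually (eventually_ge_atTop (100 : ℝ)),
    tendsto_natCast_atTop_atTop.eventually e2, hlt.eventually e3, pi_lower, step_A] with
    y h1 h2 h3 h4 h5 h6
  exact ⟨h1, h2, h3, h4, h5, h6⟩

lemma half_pow_le {t : ℝ} {m : ℕ} (h : t - 1 ≤ m) :
    (1 / 2 : ℝ) ^ m ≤ 2 * Real.exp (-(t * Real.log 2)) := by
  have h2 : (0 : ℝ) < Real.log 2 := Real.log_pos (by norm_num)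
  have e1 : (1 / 2 : ℝ) ^ m = Real.exp (-(m * Real.log 2)) := by
    rw [one_div, inv_pow, Real.exp_neg, Real.exp_nat_mul, Real.exp_log (by norm_num)]
  have e2 : 2 * Real.exp (-(t * Real.log 2)) = Real.exp (-((t - 1) * Real.log 2)) := by
    have : (2 : ℝ) = Real.exp (Real.log 2) := (Real.exp_log (by norm_num)).symm
    nth_rewrite 1 [this]
    rw [← Real.exp_add]
    congr 1
    ring
  rw [e1, e2]
  apply Real.exp_le_exp.mpr
  nlinarith

/-- The mass of the annulus `exp (- exp (exp (y / (1000 log y)))) ≤ ‖x‖ < r`, and the first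
Fourier coefficient. -/
theorem first_coeff {y : ℕ} (hg : Good y) (ν : Measure UnitAddCircle) [IsProbabilityMeasure ν]
    (hinv : ∀ q : ℕ, q.Prime → q ≤ y → Inv ν q) :
    ‖(∫ x, (fourier 1 x : ℂ) ∂ν) -
      (ν.real {x | ‖x‖ < Real.exp (-Real.exp (Real.exp (1 / 1000 * (y / Real.log y))))} : ℂ)‖ ≤
      200 * Real.exp (-(Real.log y / 50)) := by
  obtain ⟨hy2, hl1, hl2, hl3, hp, hA⟩ := hg
  set ℓ := Real.log y with hℓ
  have hyR : (2 : ℝ) ≤ y := by exact_mod_cast hy2
  have hy0 : (0 : ℝ) < y := by linarith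
  have hyexp : Real.exp ℓ = y := Real.exp_log hy0
  have hℓ0 : 0 < ℓ := by linarith
  set ε := Real.exp (-(ℓ / 50)) with hε
  have hεpos : 0 < ε := Real.exp_pos _
  have hl4 := log_four_lt
  have hl4' : 0 < Real.log 4 := Real.log_pos (by norm_num)
  have hlog2 : 0.6931471803 < Real.log 2 := Real.log_two_gt_d9
  set L := ℓ - Real.log 4 with hL
  set w := (y : ℝ) / ℓ with hw
  have hwl : 100000 * ℓ ≤ w := by
    rw [hw, le_div_iff₀ hℓ0]
    nlinarith
  have hL1 : 98 ≤ L := by linarith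
  -- the first scale
  obtain ⟨n, hn1, hn2⟩ := exists_nat_pow_near (show (1 : ℝ) ≤ L by linarith)
    (show (1 : ℝ) < 5 / 4 by norm_num)
  have hn5 : 5 ≤ n := by
    by_contra hcon
    push Not at hcon
    have : (5 / 4 : ℝ) ^ (n + 1) ≤ (5 / 4 : ℝ) ^ 5 := pow_le_pow_right₀ (by norm_num) (by omega)
    norm_num at this
    linarith
  obtain ⟨J, rfl⟩ : ∃ J, n = J + 4 := ⟨n - 4, by omega⟩
  have hJ1 : 1 ≤ J := by omega
  have hJlow : 39 / 100 * ℓ ≤ (5 / 4 : ℝ) ^ (J + 4) / 2 := by
    rw [pow_succ] at hn2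
    linarith
  set R := (5 / 4 : ℝ) ^ J with hR
  have hRup : R ≤ 41 / 100 * ℓ := by
    have : (5 / 4 : ℝ) ^ (J + 4) = R * (5 / 4) ^ 4 := pow_add _ _ _
    rw [this] at hn1
    norm_num at hn1
    linarith
  have hRlow : 32 / 100 * ℓ ≤ R := by
    have : (5 / 4 : ℝ) ^ (J + 4 + 1) = R * (5 / 4) ^ 5 := by
      rw [add_assoc, pow_add]
    rw [this] at hn2
    norm_num at hn2
    linarith
  have hR0 : 0 < R := by positivity
  -- the coefficients are equal
  have hall := inv_of_primes hinv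
  have hco : ∀ k : ℕ, 1 ≤ k → k ≤ y → ∫ x, (fourier (k : ℤ) x : ℂ) ∂ν =
      ∫ x, (fourier 1 x : ℂ) ∂ν := by
    intro k hk hky
    have := integral_fourier_inv (hall k hk hky) 1
    rwa [mul_one] at this
  -- the first annulus
  have hδ : b ν J - b ν (J + 4) ≤ ε := by
    set M := ⌊Real.exp R / 6⌋₊ with hM
    set M' := ⌈Real.exp ((5 / 4 : ℝ) ^ (J + 4))⌉₊ with hM'
    have hexpR : Real.exp (32 / 100 * ℓ) ≤ Real.exp R := Real.exp_le_exp.mpr hRlow
    have hexpR2 : 11000 ≤ Real.exp (32 / 100 * ℓ) := by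
      have h1 : Real.exp 32 ≤ Real.exp (32 / 100 * ℓ) := Real.exp_le_exp.mpr (by linarith)
      have h2 : (2 : ℝ) ^ 32 ≤ Real.exp 32 := by
        have h3 : (2 : ℝ) ≤ Real.exp 1 := by
          have := Real.add_one_le_exp (1 : ℝ)
          linarith
        calc (2 : ℝ) ^ 32 ≤ Real.exp 1 ^ 32 := pow_le_pow_left₀ (by norm_num) h3 32
          _ = Real.exp 32 := by rw [← Real.exp_nat_mul]; norm_num
      norm_num at h2
      linarith
    have hM1 : Real.exp R / 6 < M + 1 := Nat.lt_floor_add_one _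
    have hM2 : (M : ℝ) ≤ Real.exp R / 6 := Nat.floor_le (by positivity)
    have hM7 : Real.exp (32 / 100 * ℓ) / 7 ≤ M := by linarith
    have hMpos : 1 ≤ M := by
      have : (0 : ℝ) < M := by linarith
      exact_mod_cast this
    have hMR : (1 : ℝ) ≤ M := by exact_mod_cast hMpos
    have hM'1 : Real.exp ((5 / 4 : ℝ) ^ (J + 4)) ≤ M' := Nat.le_ceil _
    have hM'2 : (M' : ℝ) < Real.exp ((5 / 4 : ℝ) ^ (J + 4)) + 1 := Nat.ceil_lt_add_one (by positivity)
    have hM'pos : 1 ≤ M' := Nat.one_le_ceil_iff.mpr (Real.exp_pos _)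
    have hM'R : (1 : ℝ) ≤ M' := by exact_mod_cast hM'pos
    have hexpL : Real.exp ((5 / 4 : ℝ) ^ (J + 4)) ≤ y / 4 := by
      calc Real.exp ((5 / 4 : ℝ) ^ (J + 4)) ≤ Real.exp L := Real.exp_le_exp.mpr hn1
        _ = y / 4 := by rw [hL, Real.exp_sub, hyexp, Real.exp_log (by norm_num)]
    have hRle : Real.exp R ≤ Real.exp ((5 / 4 : ℝ) ^ (J + 4)) := by
      apply Real.exp_le_exp.mpr
      rw [hR]
      exact pow_le_pow_right₀ (by norm_num) (by omega)
    have hyM : 2 * M + M' ≤ y + 2 := by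
      have : ((2 * M + M' : ℕ) : ℝ) ≤ ((y + 2 : ℕ) : ℝ) := by
        push_cast
        linarith
      exact_mod_cast this
    have h1 := annulus hco hMpos hM'pos hyM
    rw [b_sub ν (show J ≤ J + 4 by omega)]
    have h2 : ν.real {x | Real.exp (-((5 / 4 : ℝ) ^ (J + 4))) ≤ ‖x‖ ∧ ‖x‖ < Real.exp (-R)} ≤
        32 / M := by
      refine le_trans (measureReal_mono ?_ (measure_ne_top _ _)) h1
      rintro x ⟨hx1, hx2⟩
      refine ⟨le_trans ?_ hx1, le_trans hx2.le ?_⟩
      · rw [Real.exp_neg, ← one_div]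
        exact one_div_le_one_div_of_le (Real.exp_pos _) hM'1
      · rw [Real.exp_neg, ← one_div]
        apply one_div_le_one_div_of_le (by positivity)
        linarith
    refine le_trans h2 ?_
    rw [div_le_iff₀ (by linarith)]
    have h3 : ε * (Real.exp (32 / 100 * ℓ) / 7) ≤ ε * M := mul_le_mul_of_nonneg_left hM7 hεpos.le
    refine le_trans ?_ h3
    have h4 : ε * Real.exp (32 / 100 * ℓ) = Real.exp (30 / 100 * ℓ) := by
      rw [hε, ← Real.exp_add]; congr 1; ring
    have h5 : 224 ≤ Real.exp (30 / 100 * ℓ) := by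
      have h6 : Real.exp 30 ≤ Real.exp (30 / 100 * ℓ) := Real.exp_le_exp.mpr (by linarith)
      have h2 : (2 : ℝ) ^ 30 ≤ Real.exp 30 := by
        have h3 : (2 : ℝ) ≤ Real.exp 1 := by
          have := Real.add_one_le_exp (1 : ℝ)
          linarith
        calc (2 : ℝ) ^ 30 ≤ Real.exp 1 ^ 30 := pow_le_pow_left₀ (by norm_num) h3 30
          _ = Real.exp 30 := by rw [← Real.exp_nat_mul]; norm_num
      norm_num at h2
      linarith
    have h7 : ε * (Real.exp (32 / 100 * ℓ) / 7) = Real.exp (30 / 100 * ℓ) / 7 := by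
      rw [← h4]; ring
    rw [h7]
    linarith
  -- the last scale
  set v := Real.exp (1 / 1000 * w) with hv
  have hv0 : 0 < v := Real.exp_pos _
  have hvl : 100 * ℓ ≤ v := by
    have := Real.add_one_le_exp (1 / 1000 * w)
    rw [← hv] at this
    linarith
  set K₀ := ⌈5 * v⌉₊ with hK₀
  have hK1 : 5 * v ≤ K₀ := Nat.le_ceil _
  have hK2 : (K₀ : ℝ) < 5 * v + 1 := Nat.ceil_lt_add_one (by positivity)
  have hK0 : 0 < K₀ := by
    have : (0 : ℝ) < K₀ := by linarith
    exact_mod_cast this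
  have hK0R : (0 : ℝ) < K₀ := by exact_mod_cast hK0
  obtain ⟨K, hKa, hKb, hKc⟩ := exists_block (b_antitone ν) (b_nonneg ν) (b_le_one ν) K₀ K₀ hK0
  have hJK₀ : J + 4 ≤ K₀ := by
    have h1 : 1 + ((J + 4 : ℕ) : ℝ) * (1 / 4) ≤ (5 / 4 : ℝ) ^ (J + 4) := by
      have := one_add_mul_le_pow (show (-2 : ℝ) ≤ 1 / 4 by norm_num) (J + 4)
      norm_num at this ⊢
      linarith
    have h2 : ((J + 4 : ℕ) : ℝ) ≤ (K₀ : ℝ) := by linarith
    exact_mod_cast h2
  -- the constants
  set mA := ⌊ℓ / 25⌋₊ with hmA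
  set mB := Nat.primeCounting y / 256 with hmB
  have hmA1 : ℓ / 25 - 1 ≤ mA := by
    have := Nat.lt_floor_add_one (ℓ / 25)
    linarith
  have hmB1 : (Nat.primeCounting y : ℝ) / 256 - 1 ≤ mB := by
    have h1 : Nat.primeCounting y < 256 * (mB + 1) := by omega
    have h2 : (Nat.primeCounting y : ℝ) < 256 * (mB + 1) := by exact_mod_cast h1
    linarith
  have hmBpos : 1 ≤ mB := by
    have h1 : (256 : ℝ) ≤ Nat.primeCounting y := by linarith
    have h2 : 256 ≤ Nat.primeCounting y := by exact_mod_cast h1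
    omega
  have hα := half_pow_le hmA1
  have hβ := half_pow_le hmB1
  set α : ℝ := (1 / 2) ^ mA with hαdef
  set β : ℝ := (1 / 2) ^ mB with hβdef
  have hα0 : 0 ≤ α := by positivity
  have hβ0 : 0 ≤ β := by positivity
  set N₁ := ⌈10 * ℓ⌉₊ with hN₁
  have hN1 : 10 * ℓ ≤ N₁ := Nat.le_ceil _
  have hN2 : (N₁ : ℝ) < 10 * ℓ + 1 := Nat.ceil_lt_add_one (by positivity)
  have hsteps : ∀ j, J ≤ j → j + 20 ≤ K → b ν (j + 4) - b ν (j + 5) ≤
      4 / 85 * (b ν j - b ν (j + 20)) + ((if j < N₁ then α else 0) + β) := by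
    intro j hj _
    by_cases hjN : j < N₁
    · rw [if_pos hjN]
      have h1 := hA ν hinv j (by omega) (by
        have : (5 / 4 : ℝ) ^ (J + 4) ≤ (5 / 4 : ℝ) ^ (j + 4) :=
          pow_le_pow_right₀ (by norm_num) (by omega)
        linarith)
      linarith
    · rw [if_neg hjN]
      have h1 := step_B hy2 hmBpos ν hinv (j := j) (by omega) (by
        have h2 : N₁ ≤ j := by omega
        have h3 : (N₁ : ℝ) ≤ j := by exact_mod_cast h2
        linarith)
      linarith
  have hsum : ∑ i ∈ Finset.range (K - 19 - J), ((if J + i < N₁ then α else 0) + β) ≤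
      (10 * ℓ + 1) * α + 17 * K₀ * β := by
    rw [Finset.sum_add_distrib]
    apply add_le_add
    · rw [← Finset.sum_filter, Finset.sum_const, nsmul_eq_mul]
      apply mul_le_mul_of_nonneg_right _ hα0
      have h1 : ((Finset.range (K - 19 - J)).filter fun i => J + i < N₁).card ≤ N₁ := by
        calc ((Finset.range (K - 19 - J)).filter fun i => J + i < N₁).card ≤
              (Finset.range N₁).card := by
              apply Finset.card_le_card
              intro i hi
              rw [Finset.mem_filter] at hi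
              rw [Finset.mem_range]
              omega
          _ = N₁ := Finset.card_range _
      have h2 : (((Finset.range (K - 19 - J)).filter fun i => J + i < N₁).card : ℝ) ≤ N₁ := by
        exact_mod_cast h1
      linarith
    · rw [Finset.sum_const, Finset.card_range, nsmul_eq_mul]
      apply mul_le_mul_of_nonneg_right _ hβ0
      have h1 : K - 19 - J ≤ 17 * K₀ := by omega
      exact_mod_cast h1
  have hfin := finite_sum (b_antitone ν) (show J + 20 ≤ K by omega) hsteps hδ hsum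
  -- the bounds for the error terms
  have hEA : (10 * ℓ + 1) * α ≤ ε := by
    have h1 : Real.exp (-(ℓ / 25 * Real.log 2)) ≤ Real.exp (-(277 / 10000 * ℓ)) := by
      apply Real.exp_le_exp.mpr
      nlinarith
    calc (10 * ℓ + 1) * α ≤ (10 * ℓ + 1) * (2 * Real.exp (-(277 / 10000 * ℓ))) := by
          apply mul_le_mul_of_nonneg_left _ (by positivity)
          linarith
      _ = (20 * ℓ + 2) * Real.exp (-(277 / 10000 * ℓ)) := by ring
      _ ≤ ε := hl3
  have hEB : 17 * K₀ * β ≤ ε := by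
    have h1 : Real.exp (-((Nat.primeCounting y : ℝ) / 256 * Real.log 2)) ≤
        Real.exp (-(16 / 10000 * w)) := by
      apply Real.exp_le_exp.mpr
      have h2 : (0 : ℝ) ≤ w := by linarith
      have h3 : 3 / 5 * w / 256 * 0.6931471803 ≤ (Nat.primeCounting y : ℝ) / 256 * Real.log 2 := by
        apply mul_le_mul _ hlog2.le (by norm_num) (by positivity)
        linarith
      linarith
    have h2 : (K₀ : ℝ) ≤ 6 * v := by linarith
    have h3 : 17 * K₀ * β ≤ 17 * (6 * v) * (2 * Real.exp (-(16 / 10000 * w))) := by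
      apply mul_le_mul _ (by linarith) hβ0 (by positivity)
      linarith
    refine le_trans h3 ?_
    have h4 : 17 * (6 * v) * (2 * Real.exp (-(16 / 10000 * w))) = 204 * Real.exp (-(6 / 10000 * w)) := by
      have h5 : v * Real.exp (-(16 / 10000 * w)) = Real.exp (-(6 / 10000 * w)) := by
        rw [hv, ← Real.exp_add]; congr 1; ring
      rw [← h5]; ring
    rw [h4]
    have h5 : Real.exp (-(6 / 10000 * w)) ≤ Real.exp (-(60 * ℓ)) := Real.exp_le_exp.mpr (by linarith)
    have h6 : Real.exp (-(60 * ℓ)) = Real.exp (-(59.98 * ℓ)) * ε := by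
      rw [hε, ← Real.exp_add]; congr 1; ring
    have h7 : 204 * Real.exp (-(59.98 * ℓ)) ≤ 1 := by
      rw [Real.exp_neg, ← div_eq_mul_inv, div_le_one (Real.exp_pos _)]
      have := Real.add_one_le_exp (59.98 * ℓ)
      linarith
    calc 204 * Real.exp (-(6 / 10000 * w)) ≤ 204 * (Real.exp (-(59.98 * ℓ)) * ε) := by
          rw [← h6]; linarith
      _ = (204 * Real.exp (-(59.98 * ℓ))) * ε := by ring
      _ ≤ 1 * ε := mul_le_mul_of_nonneg_right h7 hεpos.le
      _ = ε := one_mul _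
  have hEK : 1 / (K₀ : ℝ) ≤ ε := by
    rw [div_le_iff₀ hK0R, hε, Real.exp_neg, ← div_eq_inv_mul, le_div_iff₀ (Real.exp_pos _), one_mul]
    refine le_trans ?_ hK1
    have h1 : Real.exp (ℓ / 50) ≤ v := by
      rw [hv]
      apply Real.exp_le_exp.mpr
      linarith
    linarith
  have hMain : b ν J - b ν K₀ ≤ 68 * ε := by
    have h1 : b ν K ≤ b ν K₀ := b_antitone ν (by omega)
    linarith
  -- the comparison
  set ρ := Real.exp (-Real.exp v) with hρ
  have hcmp := compare (by omega : 1 ≤ y) hco (ρ := ρ) (r := Real.exp (-R)) (Real.exp_pos _).le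
    (Real.exp_pos _)
  have hmid : ν.real {x | ρ ≤ ‖x‖ ∧ ‖x‖ < Real.exp (-R)} ≤ 68 * ε := by
    refine le_trans ?_ hMain
    rw [b_sub ν (show J ≤ K₀ by omega)]
    apply measureReal_mono _ (measure_ne_top _ _)
    rintro x ⟨hx1, hx2⟩
    refine ⟨le_trans ?_ hx1, hx2⟩
    rw [hρ]
    apply Real.exp_le_exp.mpr
    apply neg_le_neg
    rw [← Real.log_le_log_iff (Real.exp_pos _) (by positivity), Real.log_exp, Real.log_pow]
    have h5 : 1 / 5 ≤ Real.log (5 / 4) := by
      have := Real.one_sub_inv_le_log_of_pos (show (0 : ℝ) < 5 / 4 by norm_num)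
      norm_num at this
      linarith
    nlinarith
  have hfirst : 2 * Real.pi * y * ρ ≤ ε := by
    have h1 : 2 * Real.pi ≤ Real.exp ℓ := by
      have := Real.pi_le_four
      have := Real.add_one_le_exp ℓ
      linarith
    have h2 : 2 * ℓ + ℓ / 50 ≤ Real.exp v := by
      have := Real.add_one_le_exp v
      linarith
    calc 2 * Real.pi * y * ρ ≤ Real.exp ℓ * y * ρ := by gcongr
      _ = Real.exp (2 * ℓ - Real.exp v) := by
          rw [hρ, ← hyexp, ← Real.exp_add, ← Real.exp_add]; congr 1; ring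
      _ ≤ ε := by
          rw [hε]
          apply Real.exp_le_exp.mpr
          linarith
  have hlast : 1 / (2 * y * Real.exp (-R)) ≤ ε := by
    rw [div_le_iff₀ (by positivity)]
    have h0 : Real.exp (ℓ - R - ℓ / 50) = ε * y * Real.exp (-R) := by
      calc Real.exp (ℓ - R - ℓ / 50) = Real.exp (-(ℓ / 50)) * Real.exp ℓ * Real.exp (-R) := by
            rw [← Real.exp_add, ← Real.exp_add]; congr 1; ring
        _ = ε * y * Real.exp (-R) := by rw [hyexp]
    have h1 : ε * (2 * y * Real.exp (-R)) = 2 * Real.exp (ℓ - R - ℓ / 50) := by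
      rw [h0]; ring
    rw [h1]
    have h2 : 1 ≤ Real.exp (ℓ - R - ℓ / 50) := by
      rw [Real.one_le_exp_iff]
      linarith
    linarith
  refine le_trans hcmp ?_
  linarith

end Pool.Agent.H237.Primes
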