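import Mathlib
import Pool.Agent.H237.Primes.Assemble

/-!
# All Fourier coefficients, and subgroups of `(ℤ / N)ˣ`
-/

namespace Pool.Agent.H237.Primes

open MeasureTheory Set Filter Topology Pool.Agent.H237.Gap ENNReal

/-- `exp (exp (exp (y / (1000 log y))))`. -/
noncomputable def X (y : ℕ) : ℝ := Real.exp (Real.exp (Real.exp (1 / 1000 * (y / Real.log y))))

lemma map_inv' {μ : Measure UnitAddCircle} {q : ℕ} (h : Inv μ q) (n : ℤ) :
    Inv (μ.map fun x : UnitAddCircle => n • x) q := by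
  have hn : Measurable fun x : UnitAddCircle => n • x := by fun_prop
  have hq : Measurable fun x : UnitAddCircle => q • x := by fun_prop
  refine ⟨hq, ?_⟩
  rw [Measure.map_map hq hn]
  have : ((fun x : UnitAddCircle => q • x) ∘ fun x : UnitAddCircle => n • x) =
      (fun x : UnitAddCircle => n • x) ∘ fun x : UnitAddCircle => q • x := by
    ext x
    simp only [Function.comp_apply]
    rw [smul_comm]
  rw [this, ← Measure.map_map hn hq, h.map_eq]

lemma coeff_dilate {y : ℕ} (hg : Good y) (μ : Measure UnitAddCircle) [IsProbabilityMeasure μ]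
    (hinv : ∀ q : ℕ, q.Prime → q ≤ y → Inv μ q) (n : ℤ) :
    ‖(∫ x, (fourier n x : ℂ) ∂μ) - (μ.real {x | ‖n • x‖ < 1 / X y} : ℂ)‖ ≤
      200 * (y : ℝ) ^ (-(1 / 50) : ℝ) := by
  have hn : Measurable fun x : UnitAddCircle => n • x := by fun_prop
  have hprob : IsProbabilityMeasure (μ.map fun x : UnitAddCircle => n • x) :=
    Measure.isProbabilityMeasure_map hn.aemeasurable
  have h1 := first_coeff hg (μ.map fun x : UnitAddCircle => n • x)
    (fun q hq hqy => map_inv' (hinv q hq hqy) n)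
  have hc : Continuous fun x : UnitAddCircle => (fourier 1 x : ℂ) := by fun_prop
  rw [integral_map hn.aemeasurable hc.aestronglyMeasurable] at h1
  have e1 : ∀ x : UnitAddCircle, (fourier 1 (n • x) : ℂ) = fourier n x := by
    intro x
    rw [fourier_apply, fourier_apply, one_smul]
  simp_rw [e1] at h1
  have hm : MeasurableSet {x : UnitAddCircle | ‖x‖ <
      Real.exp (-Real.exp (Real.exp (1 / 1000 * (y / Real.log y))))} :=
    (isOpen_lt continuous_norm continuous_const).measurableSet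
  rw [Measure.real, Measure.map_apply hn hm] at h1
  have e2 : Real.exp (-(Real.log y / 50)) = (y : ℝ) ^ (-(1 / 50) : ℝ) := by
    have : (0 : ℝ) < y := by
      have := hg.y2
      exact_mod_cast (by omega : 0 < y)
    rw [Real.rpow_def_of_pos this]
    congr 1
    ring
  rw [← e2]
  unfold X
  rw [one_div, ← Real.exp_neg]
  exact h1

/-- The average of the point masses at the points `f i`. -/
noncomputable def avg {ι : Type*} [Fintype ι] (f : ι → UnitAddCircle) : Measure UnitAddCircle :=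
  ((Fintype.card ι : ℝ≥0∞)⁻¹) • ∑ i, Measure.dirac (f i)

lemma avg_prob {ι : Type*} [Fintype ι] [Nonempty ι] (f : ι → UnitAddCircle) :
    IsProbabilityMeasure (avg f) := by
  refine ⟨?_⟩
  unfold avg
  rw [Measure.smul_apply, Measure.finsetSum_apply]
  simp only [measure_univ, Finset.sum_const, nsmul_eq_mul, mul_one, smul_eq_mul]
  have h0 : (Fintype.card ι : ℝ≥0∞) ≠ 0 := by
    simp only [ne_eq, Nat.cast_eq_zero]
    exact Fintype.card_ne_zero
  exact ENNReal.inv_mul_cancel h0 (by simp)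

lemma avg_inv {ι : Type*} [Fintype ι] {f : ι → UnitAddCircle} {q : ℕ} (σ : Equiv.Perm ι)
    (h : ∀ i, q • f i = f (σ i)) : Inv (avg f) q := by
  have hm : Measurable fun x : UnitAddCircle => q • x := by fun_prop
  refine ⟨hm, ?_⟩
  unfold avg
  rw [Measure.map_smul]
  congr 1
  have h1 : Measure.map (fun x : UnitAddCircle => q • x) (∑ i, Measure.dirac (f i)) =
      ∑ i, Measure.dirac (f (σ i)) := by
    ext s hs
    rw [Measure.map_apply hm hs, Measure.finsetSum_apply, Measure.finsetSum_apply]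
    apply Finset.sum_congr rfl
    intro i _
    rw [Measure.dirac_apply' _ (hm hs), Measure.dirac_apply' _ hs, ← h i]
    rfl
  rw [h1]
  exact Equiv.sum_comp σ fun i => Measure.dirac (f i)

lemma avg_integral {ι : Type*} [Fintype ι] (f : ι → UnitAddCircle) (φ : UnitAddCircle → ℂ) :
    ∫ x, φ x ∂(avg f) = (Fintype.card ι : ℂ)⁻¹ * ∑ i, φ (f i) := by
  unfold avg
  rw [integral_smul_measure, integral_finsetSum_measure]
  · simp only [integral_dirac]
    rw [ENNReal.toReal_inv, ENNReal.toReal_natCast, Complex.real_smul]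
    push_cast
    rfl
  · intro i _
    exact integrable_dirac (by simp)

lemma avg_null {ι : Type*} [Fintype ι] {f : ι → UnitAddCircle} {s : Set UnitAddCircle}
    (hs : MeasurableSet s) (h : ∀ i, f i ∉ s) : (avg f).real s = 0 := by
  unfold avg
  rw [Measure.real, Measure.smul_apply, Measure.finsetSum_apply]
  have : ∑ i, Measure.dirac (f i) s = 0 := by
    apply Finset.sum_eq_zero
    intro i _
    rw [Measure.dirac_apply' _ hs, Set.indicator_of_notMem (h i)]
  rw [this]
  simp

lemma norm_toAddCircle {N : ℕ} [NeZero N] {k : ZMod N} (hk : k ≠ 0) :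
    1 / (N : ℝ) ≤ ‖ZMod.toAddCircle k‖ := by
  obtain ⟨t, ht, ht2⟩ := exists_rep (ZMod.toAddCircle k)
  have hN : (0 : ℝ) < N := by exact_mod_cast Nat.pos_of_ne_zero (NeZero.ne N)
  have h1 : N • ((t : ℝ) : UnitAddCircle) = 0 := by
    rw [ht, ← map_nsmul]
    simp
  have h2 : (((N : ℝ) * t : ℝ) : UnitAddCircle) = 0 := by
    rw [← h1, ← AddCircle.coe_nsmul, nsmul_eq_mul]
  rw [AddCircle.coe_eq_zero_iff] at h2
  obtain ⟨m, hm⟩ := h2
  rw [zsmul_eq_mul, mul_one] at hm
  have hm0 : m ≠ 0 := by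
    rintro rfl
    rw [Int.cast_zero] at hm
    have ht0 : t = 0 := by
      rcases mul_eq_zero.mp hm.symm with h | h
      · exact absurd h hN.ne'
      · exact h
    rw [ht0] at ht
    have h3 : ZMod.toAddCircle k = 0 := by
      rw [← ht]
      simp
    exact hk (ZMod.toAddCircle_eq_zero.mp h3)
  have h4 : (1 : ℝ) ≤ |(m : ℝ)| := by
    have : (1 : ℤ) ≤ |m| := Int.one_le_abs hm0
    exact_mod_cast this
  rw [← ht2, div_le_iff₀ hN, mul_comm]
  calc (1 : ℝ) ≤ |(m : ℝ)| := h4
    _ = N * |t| := by rw [hm, abs_mul, abs_of_pos hN]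

lemma subgroup_sum {y : ℕ} (hg : Good y) {N : ℕ} [NeZero N] (hN : (N : ℝ) ≤ X y)
    (H : Subgroup (ZMod N)ˣ) [Fintype H]
    (hH : ∀ q : ℕ, q.Prime → q ≤ y → ∃ h ∈ H, ((h : (ZMod N)ˣ) : ZMod N) = q) {a : ZMod N}
    (ha : a ≠ 0) :
    ‖∑ h : H, ZMod.stdAddChar (a * ((h : (ZMod N)ˣ) : ZMod N))‖ ≤
      200 * (y : ℝ) ^ (-(1 / 50) : ℝ) * Fintype.card H := by
  set f : H → UnitAddCircle := fun h => ZMod.toAddCircle (a * ((h : (ZMod N)ˣ) : ZMod N)) with hf
  have hprob := avg_prob f
  have hinv : ∀ q : ℕ, q.Prime → q ≤ y → Inv (avg f) q := by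
    intro q hq hqy
    obtain ⟨u, huH, hu⟩ := hH q hq hqy
    refine avg_inv (Equiv.mulLeft (⟨u, huH⟩ : H)) ?_
    intro h
    rw [hf]
    simp only [Equiv.coe_mulLeft, Subgroup.coe_mul, Units.val_mul]
    rw [← map_nsmul, nsmul_eq_mul, hu]
    congr 1
    ring
  have h1 := coeff_dilate hg (avg f) hinv 1
  have hX : 0 < X y := Real.exp_pos _
  have h2 : (avg f).real {x : UnitAddCircle | ‖(1 : ℤ) • x‖ < 1 / X y} = 0 := by
    apply avg_null
    · simp only [one_smul]
      exact (isOpen_lt continuous_norm continuous_const).measurableSet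
    · intro h hh
      rw [mem_ofPred_eq, one_smul] at hh
      have h3 : a * ((h : (ZMod N)ˣ) : ZMod N) ≠ 0 := by
        intro h0
        apply ha
        have := congrArg (fun z => z * (((h : (ZMod N)ˣ)⁻¹ : (ZMod N)ˣ) : ZMod N)) h0
        simpa [mul_assoc] using this
      have h4 := norm_toAddCircle h3
      have hN0 : (0 : ℝ) < N := by exact_mod_cast Nat.pos_of_ne_zero (NeZero.ne N)
      have h5 : 1 / X y ≤ 1 / (N : ℝ) := one_div_le_one_div_of_le hN0 hN
      have : ‖f h‖ < ‖f h‖ := lt_of_lt_of_le hh (le_trans h5 h4)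
      exact lt_irrefl _ this
  rw [h2, avg_integral] at h1
  simp only [Complex.ofReal_zero, sub_zero] at h1
  have hcard : (0 : ℝ) < Fintype.card H := by exact_mod_cast Fintype.card_pos
  have e1 : ∀ h : H, (fourier 1 (f h) : ℂ) = ZMod.stdAddChar (a * ((h : (ZMod N)ˣ) : ZMod N)) := by
    intro h
    rw [fourier_apply, one_smul, ZMod.stdAddChar_apply]
    rfl
  simp_rw [e1] at h1
  rw [norm_mul, norm_inv, Complex.norm_natCast, inv_mul_eq_div, div_le_iff₀ hcard] at h1
  exact h1

end Pool.Agent.H237.Primes
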